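import Mathlib

/-!
# Symmetric identities of bounded arity do not axiomatize: a counterexample of arity three

The variety `V` is defined by the identity
`(x ⊔ y) ⊓ (x ⊔ z) ≈ x ⊔ (y ⊓ (x ⊔ z)) ⊔ (z ⊓ (x ⊔ y))`. The lattice `D` with nine elements is the
Boolean lattice with three atoms in which one atom is doubled. The identity fails in `D`, only for
the two triples consisting of the lower copy of the doubled atom, in the first place, and the other
two atoms. Every symmetric identity with at most three variables which holds in `V` holds in `D`.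
-/

set_option autoImplicit false

namespace Pool.Agent.Results.MP_78b302_al.TernaryCounterexample

/-- lattice terms in `n` variables -/
inductive Term (n : ℕ) : Type
  | var (i : Fin n) : Term n
  | sup (s t : Term n) : Term n
  | inf (s t : Term n) : Term n

/-- the value of a term in a lattice -/
def Term.eval {n : ℕ} {L : Type} [Lattice L] (a : Fin n → L) : Term n → L
  | .var i => a i
  | .sup s t => s.eval a ⊔ t.eval a
  | .inf s t => s.eval a ⊓ t.eval a

/-- the term `t_σ`: every variable `x_i` is replaced by `x_(σ i)` -/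
def Term.perm {n : ℕ} (σ : Equiv.Perm (Fin n)) : Term n → Term n
  | .var i => .var (σ i)
  | .sup s t => .sup (s.perm σ) (t.perm σ)
  | .inf s t => .inf (s.perm σ) (t.perm σ)

/-- the identity `s ≈ t` holds in the lattice `L` -/
def Holds (L : Type) [Lattice L] {n : ℕ} (s t : Term n) : Prop :=
  ∀ a : Fin n → L, s.eval a = t.eval a

/-- `s` and `t` are equal as elements of the free lattice on `n` generators, that is, the identity
`s ≈ t` holds in all lattices -/
def EqInFree {n : ℕ} (s t : Term n) : Prop := ∀ (L : Type) [Lattice L], Holds L s t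

/-- the term is symmetric: `t_σ = t` in the free lattice for all permutations `σ` -/
def IsSymm {n : ℕ} (t : Term n) : Prop := ∀ σ : Equiv.Perm (Fin n), EqInFree (t.perm σ) t

/-- an identity `lhs ≈ rhs` with its arity -/
structure Identity where
  /-- the number of variables -/
  arity : ℕ
  /-- the left side -/
  lhs : Term arity
  /-- the right side -/
  rhs : Term arity

/-- the lattice `L` belongs to the variety defined by the set `E` of identities -/
def Models (E : Set Identity) (L : Type) [Lattice L] : Prop := ∀ e ∈ E, Holds L e.lhs e.rhs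

/-- the symmetric identities of arity at most `k` which hold in the variety defined by `E` -/
def symPart (E : Set Identity) (k : ℕ) : Set Identity :=
  {e | e.arity ≤ k ∧ IsSymm e.lhs ∧ IsSymm e.rhs ∧
    ∀ (L : Type) [Lattice L], Models E L → Holds L e.lhs e.rhs}

theorem eval_perm {n : ℕ} {L : Type} [Lattice L] (a : Fin n → L) (σ : Equiv.Perm (Fin n))
    (t : Term n) : (t.perm σ).eval a = t.eval (fun i => a (σ i)) := by
  induction t with
  | var i => rfl
  | sup s t hs ht => simp only [Term.perm, Term.eval, hs, ht]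
  | inf s t hs ht => simp only [Term.perm, Term.eval, hs, ht]

theorem eval_map {n : ℕ} {L M : Type} [Lattice L] [Lattice M] (f : L → M)
    (h1 : ∀ x y, f (x ⊔ y) = f x ⊔ f y) (h2 : ∀ x y, f (x ⊓ y) = f x ⊓ f y) (a : Fin n → L)
    (t : Term n) : f (t.eval a) = t.eval (fun i => f (a i)) := by
  induction t with
  | var i => rfl
  | sup s t hs ht => simp only [Term.eval, h1, hs, ht]
  | inf s t hs ht => simp only [Term.eval, h2, hs, ht]

theorem symm_eval {n : ℕ} {L : Type} [Lattice L] {t : Term n} (h : IsSymm t) (a : Fin n → L)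
    (σ : Equiv.Perm (Fin n)) : t.eval (fun i => a (σ i)) = t.eval a := by
  rw [← eval_perm]
  exact h σ L a

/-- the left side of the identity defining the variety -/
def lft : Term 3 := .inf (.sup (.var 0) (.var 1)) (.sup (.var 0) (.var 2))

/-- the right side of the identity defining the variety -/
def rgt : Term 3 := .sup (.sup (.var 0) (.inf (.var 1) (.sup (.var 0) (.var 2))))
  (.inf (.var 2) (.sup (.var 0) (.var 1)))

/-- the identity defining the variety -/
def theId : Identity := ⟨3, lft, rgt⟩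

/-- the elements of the lattice `D`: `0`, the two copies `1 < 2` of the atom `x`, the atoms `3 = y`,
`4 = z`, the elements `5 = x ⊔ y`, `6 = x ⊔ z`, `7 = y ⊔ z` and the top `8` -/
def D : Type := Fin 9

instance : DecidableEq D := inferInstanceAs (DecidableEq (Fin 9))
instance : Fintype D := inferInstanceAs (Fintype (Fin 9))

/-- table of joins -/
def tj : Fin 9 → Fin 9 → Fin 9 :=
  ![![0, 1, 2, 3, 4, 5, 6, 7, 8],
    ![1, 1, 2, 5, 6, 5, 6, 8, 8],
    ![2, 2, 2, 5, 6, 5, 6, 8, 8],
    ![3, 5, 5, 3, 7, 5, 8, 7, 8],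
    ![4, 6, 6, 7, 4, 8, 6, 7, 8],
    ![5, 5, 5, 5, 8, 5, 8, 8, 8],
    ![6, 6, 6, 8, 6, 8, 6, 8, 8],
    ![7, 8, 8, 7, 7, 8, 8, 7, 8],
    ![8, 8, 8, 8, 8, 8, 8, 8, 8]]

/-- table of meets -/
def tm : Fin 9 → Fin 9 → Fin 9 :=
  ![![0, 0, 0, 0, 0, 0, 0, 0, 0],
    ![0, 1, 1, 0, 0, 1, 1, 0, 1],
    ![0, 1, 2, 0, 0, 2, 2, 0, 2],
    ![0, 0, 0, 3, 0, 3, 0, 3, 3],
    ![0, 0, 0, 0, 4, 0, 4, 4, 4],
    ![0, 1, 2, 3, 0, 5, 2, 3, 5],
    ![0, 1, 2, 0, 4, 2, 6, 4, 6],
    ![0, 0, 0, 3, 4, 3, 4, 7, 7],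
    ![0, 1, 2, 3, 4, 5, 6, 7, 8]]

instance instLatticeD : Lattice D :=
  letI : Max D := ⟨fun a b => tj a b⟩
  letI : Min D := ⟨fun a b => tm a b⟩
  Lattice.mk' (α := D) (by decide) (by decide) (by decide) (by decide) (by decide) (by decide)

/-- the homomorphism onto the Boolean lattice with three atoms -/
def pr : D → Fin 3 → Bool :=
  ![![false, false, false], ![true, false, false], ![true, false, false], ![false, true, false],
    ![false, false, true], ![true, true, false], ![true, false, true], ![false, true, true],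
    ![true, true, true]]

theorem pr_sup : ∀ a b : D, pr (a ⊔ b) = pr a ⊔ pr b := by decide

theorem pr_inf : ∀ a b : D, pr (a ⊓ b) = pr a ⊓ pr b := by decide

/-- the elements of `D` by their number -/
def el (i : Fin 9) : D := i

set_option maxHeartbeats 4000000 in
theorem bad : ∀ x y z : D,
    (x ⊔ y) ⊓ (x ⊔ z) = x ⊔ y ⊓ (x ⊔ z) ⊔ z ⊓ (x ⊔ y) ∨
      (x = el 1 ∧ ((y = el 3 ∧ z = el 4) ∨ (y = el 4 ∧ z = el 3))) := by decide

theorem not_models : ¬ Models {theId} D := by
  intro h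
  have h1 := h theId rfl ![el 1, el 3, el 4]
  revert h1
  show ¬ ((el 1 ⊔ el 3) ⊓ (el 1 ⊔ el 4) = el 1 ⊔ el 3 ⊓ (el 1 ⊔ el 4) ⊔ el 4 ⊓ (el 1 ⊔ el 3))
  decide

theorem models_cube : Models {theId} (Fin 3 → Bool) := by
  rintro e rfl (a : Fin 3 → _)
  show (a 0 ⊔ a 1) ⊓ (a 0 ⊔ a 2) = a 0 ⊔ a 1 ⊓ (a 0 ⊔ a 2) ⊔ a 2 ⊓ (a 0 ⊔ a 1)
  funext i
  have key : ∀ x y z : Bool, (x ⊔ y) ⊓ (x ⊔ z) = x ⊔ y ⊓ (x ⊔ z) ⊔ z ⊓ (x ⊔ y) := by decide
  exact key (a 0 i) (a 1 i) (a 2 i)

theorem models_sub (P : Sublattice D) (hP : ¬ (el 1 ∈ P ∧ el 3 ∈ P ∧ el 4 ∈ P)) :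
    Models {theId} P := by
  rintro e rfl (a : Fin 3 → _)
  show (a 0 ⊔ a 1) ⊓ (a 0 ⊔ a 2) = a 0 ⊔ a 1 ⊓ (a 0 ⊔ a 2) ⊔ a 2 ⊓ (a 0 ⊔ a 1)
  apply Subtype.val_injective
  show ((a 0 : D) ⊔ a 1) ⊓ (a 0 ⊔ a 2) = a 0 ⊔ a 1 ⊓ (a 0 ⊔ a 2) ⊔ a 2 ⊓ (a 0 ⊔ a 1)
  rcases bad (a 0) (a 1) (a 2) with h | ⟨h0, ⟨h1, h2⟩ | ⟨h1, h2⟩⟩
  · exact h
  · exact absurd ⟨h0 ▸ (a 0).2, h1 ▸ (a 1).2, h2 ▸ (a 2).2⟩ hP
  · exact absurd ⟨h0 ▸ (a 0).2, h2 ▸ (a 2).2, h1 ▸ (a 1).2⟩ hP

/-- proper sublattices of `D`, as lists of elements -/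
def subs : List (List D) :=
  [[el 0, el 8, el 1, el 6, el 7, el 4], [el 0, el 8, el 1, el 5, el 3, el 7],
    [el 0, el 8, el 1, el 2, el 5, el 6, el 4], [el 0, el 8, el 1, el 2, el 5, el 6, el 3],
    [el 0, el 8, el 2, el 5, el 6, el 3, el 7, el 4], [el 0, el 8, el 1, el 2, el 7]]

theorem subs_closed : ∀ S ∈ subs, (∀ a ∈ S, ∀ b ∈ S, a ⊔ b ∈ S ∧ a ⊓ b ∈ S) ∧
    ¬ (el 1 ∈ S ∧ el 3 ∈ S ∧ el 4 ∈ S) := by decide

set_option maxHeartbeats 4000000 in
theorem cover : ∀ a b c : D, (∃ S ∈ subs, a ∈ S ∧ b ∈ S ∧ c ∈ S) ∨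
    ∃ σ : Equiv.Perm (Fin 3), ∀ i, ![a, b, c] i = ![el 1, el 3, el 4] (σ i) := by decide

/-- the sublattice with the elements of `S` -/
def mkSub (S : List D) (hS : S ∈ subs) : Sublattice D where
  carrier := {a | a ∈ S}
  supClosed' := fun a ha b hb => (((subs_closed S hS).1 a ha b hb).1 : a ⊔ b ∈ S)
  infClosed' := fun a ha b hb => (((subs_closed S hS).1 a ha b hb).2 : a ⊓ b ∈ S)

/-- identities of the variety hold for tuples in a proper sublattice -/
theorem eq_of_mem {n : ℕ} {s t : Term n} (h : ∀ (L : Type) [Lattice L], Models {theId} L → Holds L s t)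
    (S : List D) (hS : S ∈ subs) (a : Fin n → D) (ha : ∀ i, a i ∈ S) : s.eval a = t.eval a := by
  let P := mkSub S hS
  have hP : Models {theId} P := models_sub P (subs_closed S hS).2
  let a' : Fin n → P := fun i => ⟨a i, ha i⟩
  have h1 := h P hP a'
  have h2 := congrArg (Subtype.val : P → D) h1
  rw [eval_map (Subtype.val : P → D) (fun _ _ => rfl) (fun _ _ => rfl) a' s,
    eval_map (Subtype.val : P → D) (fun _ _ => rfl) (fun _ _ => rfl) a' t] at h2
  exact h2

/-- a variable of the term -/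
def Term.leaf {n : ℕ} : Term n → Fin n
  | .var i => i
  | .sup s _ => s.leaf
  | .inf s _ => s.leaf

theorem pr_const {t : Term 3} (ht : IsSymm t) (j : Fin 3) :
    pr (t.eval ![el 1, el 3, el 4]) j = pr (t.eval ![el 1, el 3, el 4]) 0 := by
  have key : ∀ j : Fin 3, pr (t.eval ![el 1, el 3, el 4]) j =
      t.eval (fun i => (decide (i = j) : Bool)) := by
    intro j
    rw [eval_map (fun d => pr d j) (fun x y => by rw [pr_sup]; rfl) (fun x y => by rw [pr_inf]; rfl)]
    congr 1
    funext i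
    revert i j
    decide
  rw [key j, key 0]
  have h := symm_eval ht (fun i => (decide (i = (0 : Fin 3)) : Bool)) (Equiv.swap 0 j)
  rw [← h]
  congr 1
  funext i
  clear h key
  revert i j
  decide

theorem ends : ∀ d : D, (∀ j, pr d j = pr d 0) → d = el 0 ∨ d = el 8 := by decide

theorem result : ∃ e : Identity, e.arity = 3 ∧ ∃ (L : Type) (_ : Lattice L), Nat.card L = 9 ∧
    Models (symPart {e} 3) L ∧ ¬ Models {e} L := by
  refine ⟨theId, rfl, D, inferInstance, by simp [Nat.card_eq_fintype_card, D], ?_, not_models⟩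
  rintro ⟨n, s, t⟩ ⟨hn, hs, ht, h⟩
  replace hn : n ≤ 3 := hn
  replace hs : IsSymm s := hs
  replace ht : IsSymm t := ht
  replace h : ∀ (L : Type) [Lattice L], Models {theId} L → Holds L s t := h
  show Holds D s t
  intro a
  interval_cases n
  · exact (s.leaf).elim0
  · rcases cover (a 0) (a 0) (a 0) with ⟨S, hS, h1, -, -⟩ | ⟨σ, hσ⟩
    · exact eq_of_mem h S hS a (fun i => by rw [Subsingleton.elim i 0]; exact h1)
    · exfalso
      have h1 : (![el 1, el 3, el 4] : Fin 3 → D) (σ 0) = ![el 1, el 3, el 4] (σ 1) :=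
        (hσ 0).symm.trans (hσ 1)
      have h2 : ∀ i j : Fin 3, (![el 1, el 3, el 4] : Fin 3 → D) i = ![el 1, el 3, el 4] j → i = j := by
        decide
      exact absurd (σ.injective (h2 _ _ h1)) (by decide)
  · rcases cover (a 0) (a 1) (a 1) with ⟨S, hS, h1, h2, -⟩ | ⟨σ, hσ⟩
    · refine eq_of_mem h S hS a (fun i => ?_)
      fin_cases i
      · exact h1
      · exact h2
    · exfalso
      have h1 : (![el 1, el 3, el 4] : Fin 3 → D) (σ 1) = ![el 1, el 3, el 4] (σ 2) :=
        (hσ 1).symm.trans (hσ 2)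
      have h2 : ∀ i j : Fin 3, (![el 1, el 3, el 4] : Fin 3 → D) i = ![el 1, el 3, el 4] j → i = j := by
        decide
      exact absurd (σ.injective (h2 _ _ h1)) (by decide)
  · rcases cover (a 0) (a 1) (a 2) with ⟨S, hS, h1, h2, h3⟩ | ⟨σ, hσ⟩
    · refine eq_of_mem h S hS a (fun i => ?_)
      fin_cases i
      · exact h1
      · exact h2
      · exact h3
    · have ha : a = fun i => (![el 1, el 3, el 4] : Fin 3 → D) (σ i) := by
        funext i
        rw [← hσ i]
        fin_cases i <;> rfl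
      rw [ha, symm_eval hs, symm_eval ht]
      have h1 := h (Fin 3 → Bool) models_cube (fun i => pr ((![el 1, el 3, el 4] : Fin 3 → D) i))
      rw [← eval_map pr pr_sup pr_inf, ← eval_map pr pr_sup pr_inf] at h1
      have h2 := ends _ (pr_const hs)
      have h3 := ends _ (pr_const ht)
      rcases h2 with h2 | h2 <;> rcases h3 with h3 | h3
      · rw [h2, h3]
      · rw [h2, h3] at h1
        exact absurd h1 (by decide)
      · rw [h2, h3] at h1
        exact absurd h1 (by decide)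
      · rw [h2, h3]

end Pool.Agent.Results.MP_78b302_al.TernaryCounterexample
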